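import Pool.Graph.R_pool_sql_team_seeded_1acbe0a2.Results.MP_e47f08_nt.ZetaWindows
import Pool.Agent.H48.GM.HeightGame

/-!
# Powers of `π`, zeta values and the game of the digits of the height

The question is whether `ζ(3) / π ^ 3` is rational. We consider the functions `β_l ^ s` (for instance `π ^ s`) and
`ζ^(k)(s + a_i)`, `k < w`, at the rational numbers `s`; at `s = 3` and `a_i = 0` the first of them are `π ^ 3` and `ζ(3)`.
The height `H(s)` of a rational number is the maximum of `|numerator|` and denominator.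

Two players, Compass and Adversary, write down the digits of a positive integer `H` in a base `b`, the leading digit
first. Adversary decides before each step who makes the move, and he plays almost always: Compass gets only `κ D` moves (and
a constant number of moves), if `H` has at most `D` digits; here `κ > 0` is arbitrarily small. Compass can make sure that for
ALL the rational numbers `s` of height `H` with `|s| ≤ R` and `|s + a_i - 1| ≥ 1 / (R + 1)` the numbers above satisfy no
relation, even up to `H ^ (-B)` times one of its nonzero coefficients, of degree at most `d` in each of them, with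
coefficients `∑ ξ_i c_i`, `c_i` integers, `|c_i| ≤ H ^ A`. There is ONE strategy for all `w`, `d`, `A`, `R`, `κ` and `g`, for
the given constants `ξ_0, ξ_1, …`: a rule `σ` that names a digit after every finite sequence of digits. Only the digits
written before the last move of Compass matter, `H` may go on arbitrarily.

The number of exceptional points of height at most `T` is from the library (`ShiftedZetaValues`).
-/

set_option autoImplicit false

open NumberField

namespace Pool.Agent.Results.MP_e47f08_nt.HeightGame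

open ShiftedZetaValues (values Exceptional)
open ZetaWindows (height)

/-- the first `n` terms of `x` -/
def play (x : ℕ → ℕ) (n : ℕ) : List ℕ := (List.range n).map x

/-- the number of the first `n` terms of `x` which are the ones named by the rule `σ` -/
def moves (σ : List ℕ → ℕ) (x : ℕ → ℕ) (n : ℕ) : ℕ :=
  ((Finset.range n).filter fun i => x i = σ (play x i)).card

/-- the compact set of the `z` with `|z| ≤ R` and `|z + a_i - 1| ≥ 1 / (R + 1)` for all `i` -/
def region {r : ℕ} (a : Fin r → ℝ) (R : ℕ) : Set ℂ :=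
  {z | ‖z‖ ≤ R ∧ ∀ i, 1 / ((R : ℝ) + 1) ≤ ‖z + a i - 1‖}

theorem region_compact {r : ℕ} (a : Fin r → ℝ) (R : ℕ) : IsCompact (region a R) := by
  refine Metric.isCompact_of_isClosed_isBounded ?_ ?_
  · have h1 : region a R = {z : ℂ | ‖z‖ ≤ R} ∩ ⋂ i, {z : ℂ | 1 / ((R : ℝ) + 1) ≤ ‖z + a i - 1‖} := by
      ext z
      simp [region]
    rw [h1]
    refine (isClosed_le continuous_norm continuous_const).inter (isClosed_iInter fun i => ?_)
    exact isClosed_le continuous_const (by fun_prop)
  · refine (Metric.isBounded_closedBall (x := (0 : ℂ)) (r := R)).subset fun z hz => ?_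
    simpa using hz.1

/-- **Theorem.** Let `b ≥ 2`, `β_1, …, β_h > 0` such that `∏ β_l ^ v_l` is irrational for all nonzero `v ∈ ℤ^h` (for
instance `h = 1`, `β_1 = π`), `a_1, …, a_r` distinct real numbers and `ξ_0, ξ_1, …` complex numbers. There is one rule `σ` such
that for all `w`, `d`, `A`, `R`, `g` and `κ > 0` there are `B`, `C` with the following property. If more than `κ D + C` of
the first `n` digits of a sequence are the ones named by the rule, then for every integer `H` with at most `D` digits which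
begins with these `n` digits and ALL rational numbers `s` of height `H` with `|s| ≤ R` and `|s + a_i - 1| ≥ 1 / (R + 1)`:
every polynomial `P` of degree at most `d` in each variable with coefficients `∑ ξ_i c_i`, `c_i` integers with `|c_i| ≤ H ^ A`,
has at the numbers `β_l ^ s`, `ζ^(k)(s + a_i)` (`k < w`) a value larger than `H ^ (-B)` times each of its nonzero
coefficients. -/
theorem result {b : ℕ} (hb : 2 ≤ b) {h r : ℕ} (β : Fin h → ℝ) (hβ0 : ∀ l, 0 < β l)
    (hβ : ∀ v : Fin h → ℤ, (∃ x : ℚ, ∏ l, β l ^ v l = x) → v = 0) (a : Fin r → ℝ) (ha : Function.Injective a)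
    (ξ : ℕ → ℂ) :
    ∃ σ : List ℕ → ℕ, (∀ u, σ u < b) ∧ ∀ (w d A R g : ℕ) (κ : ℝ), 0 < κ → ∃ B C : ℝ,
      ∀ (x : ℕ → ℕ) (n D : ℕ), κ * D + C < moves σ x n →
      ∀ H : ℕ, (Nat.digits b H).length ≤ D → play x n <+: (Nat.digits b H).reverse →
        ∀ s : ℚ, height s = H → |(s : ℝ)| ≤ R → (∀ i, 1 / ((R : ℝ) + 1) ≤ |(s : ℝ) + a i - 1|) →
          ∀ P : MvPolynomial (Fin 1 × (Fin h ⊕ (Fin r × Fin w))) ℂ, (∀ z, P.degreeOf z ≤ d) →
            (∀ u, ∃ c : Fin g → ℤ, (∀ i, |((c i : ℤ) : ℝ)| ≤ (H : ℝ) ^ A) ∧ P.coeff u = ∑ i : Fin g, ξ i * c i) →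
            ∀ u₀, P.coeff u₀ ≠ 0 → (H : ℝ) ^ (-B) * ‖P.coeff u₀‖ <
              ‖MvPolynomial.aeval (fun z : Fin 1 × (Fin h ⊕ (Fin r × Fin w)) => values β a w (s : ℂ) z.2) P‖ := by
  have key := Pool.Agent.H48.GM.height_game (ι := ℕ × ℕ × ℕ × ℕ × ℕ) (X := fun _ => Fin 1 → ℚ)
    (fun _ x => height (x 0))
    (fun c B N => Exceptional β a c.1 1 c.2.1 ℚ (algebraMap ℚ ℂ) (fun i : Fin c.2.2.2.2 => ξ i)
      (region a c.2.2.2.1) (c.2.2.1 : ℝ) B N)
    (fun c ε hε => by
      obtain ⟨B, C, T₀, h'⟩ := ShiftedZetaValues.result β hβ0 hβ a ha c.1 1 1 c.2.2.2.2 c.2.1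
        (region a c.2.2.2.1) (region_compact a _) (by
          intro s hs i h1
          have h2 := hs.2 i
          have h3 : s + a i - 1 = 0 := by rw [h1]; ring
          rw [h3, norm_zero] at h2
          have h4 : (0 : ℝ) < 1 / ((c.2.2.2.1 : ℝ) + 1) := by positivity
          linarith) (c.2.2.1 : ℝ) ε hε
      refine ⟨B, C, T₀, fun N hN => ?_⟩
      obtain ⟨h1, h2⟩ := h' ℚ (by simp) (algebraMap ℚ ℂ) (fun i : Fin c.2.2.2.2 => ξ i) N hN
      refine ⟨h1, h2.trans (le_of_eq ?_)⟩
      rw [Nat.sub_self, pow_zero, mul_one])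
    (fun c B B' n N x hB hB' hn hnN hN hx =>
      ZetaWindows.exceptional_mono β a c.1 c.2.1 _ _ c.2.2.1 B B' n N x hB hB' hn hnN hN hx) hb
  obtain ⟨σ, hσb, hσ⟩ := key
  refine ⟨σ, hσb, fun w d A R g κ hκ => ?_⟩
  obtain ⟨B, C, hC⟩ := hσ (w, d, A, R, g) κ hκ
  refine ⟨B, C, fun x n D hmov H hH hpre s hs hsR hsa P hPd hPc u₀ hu₀ => ?_⟩
  by_contra hcon
  rw [not_lt] at hcon
  have hsL : (s : ℂ) ∈ region a R := by
    refine ⟨?_, fun i => ?_⟩
    · have h1 : ‖(s : ℂ)‖ = |(s : ℝ)| := by
        rw [← Complex.ofReal_ratCast, Complex.norm_real, Real.norm_eq_abs]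
      rw [h1]
      exact hsR
    · have h1 : ‖(s : ℂ) + a i - 1‖ = |(s : ℝ) + a i - 1| := by
        have h2 : (s : ℂ) + a i - 1 = (((s : ℝ) + a i - 1 : ℝ) : ℂ) := by push_cast; ring
        rw [h2, Complex.norm_real, Real.norm_eq_abs]
      rw [h1]
      exact hsa i
  refine hC x n D hmov H hH hpre (fun _ => s) hs ⟨fun _ => ?_, P, hPd, fun u => ?_, u₀, hu₀, hcon⟩
  · have := ZetaWindows.mem_points s _ hsL
    rwa [hs] at this
  · obtain ⟨c, h1, h2⟩ := hPc u
    refine ⟨fun i => (c i : 𝓞 ℚ), fun i φ => ?_, ?_⟩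
    · have h3 : φ (((c i : 𝓞 ℚ)) : ℚ) = (c i : ℂ) := by simp
      rw [h3, Complex.norm_intCast, Real.rpow_natCast]
      exact h1 i
    · rw [h2]
      simp

end Pool.Agent.Results.MP_e47f08_nt.HeightGame
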