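import Pool.Graph.R_pool_sql_team_seeded_1acbe0a2.Results.MP_e47f08_nt.ZetaWindows
import Pool.Agent.H48.IG.GenSel

/-!
# Zeta values and powers of `π` at the points of a large subset of every set of rational numbers of positive exponent

The question is whether `ζ(3) / π ^ 3` is rational. We consider the functions `β_l ^ s` (for instance `π ^ s`) and
`ζ^(k)(s + a_i)`, `k < w`, at rational numbers `s`; at `s = 3` and `a_i = 0` the first of them are `π ^ 3` and `ζ(3)`.

Let `X` be a bounded set of rational numbers, at a positive distance from the poles, which has, for all `T` of an infinite set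
`𝒯`, at least `T ^ ε` elements of height at most `T`; for instance the numbers `3 + 1 / n`, or these numbers for the members
`n` of any sequence of integers of positive exponent. Let `K` be a countable set of complex numbers. We show that `X`
contains an infinite set `S` such that the values of all these functions at ALL the points of `S` are jointly independent in
bounded complexity: for all `w`, `d`, `A`, `r` and all `κ_1, …, κ_g ∈ K` there are only finitely many `r`-tuples of different
points `s_1, …, s_r` of `S` for which there is a polynomial relation between the values at `s_1, …, s_r`, of degree at most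
`d` in each of them, with coefficients `∑_k m_k κ_k`, `m_k` integers of absolute value at most `h ^ A` (`h` the largest of the
heights of the `s_j`), which is for each `j` a nontrivial relation for the values at `s_j` over the field generated by `K` and
the values at the other points. This includes all linear relations between the values at different points of `S` and, for
points `s > 1`, the multiplicative relations `∏_j ζ(s_j) ^ (m_j) = α κ`, `α` algebraic of bounded degree (`K` closed under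
multiplication).

The set `S` may be prescribed to be large: if `f (T) = T ^ o(1)`, then `S` can be chosen so that it has at least `f (T)`
elements of height at most `T` for all large `T` in `𝒯`.

Proof. The number of the exceptional points of height at most `T` of relations with given constants is `O(T ^ ε')`,
uniformly in the constants (library, `ShiftedZetaValues`). The points of `S` are chosen recursively; the products of
the values at the earlier points are among the constants of the next step. All `w`, `d`, `A`, `r` and all constants are taken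
into account, each from some step on (`Pool/Agent/H48/IG/GenSel.lean`).
-/

set_option autoImplicit false

open NumberField Filter

namespace Pool.Agent.Results.MP_e47f08_nt.LargeSubsets

open ShiftedZetaValues (values Exceptional)

/-- The height of a rational number: the maximum of the absolute value of the numerator and of the denominator. -/
def height (x : ℚ) : ℕ := max x.num.natAbs x.den

/-- the monomial `∏_z v_z ^ (e_z)` in the numbers `v_z = values β a w s z`, that is in the `β_l ^ s`, `ζ^(k)(s + a_i)`, `k < w` -/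
noncomputable def monomial {h p : ℕ} (β : Fin h → ℝ) (a : Fin p → ℝ) (w : ℕ) {d : ℕ}
    (e : Fin h ⊕ (Fin p × Fin w) → Fin (d + 1)) (s : ℚ) : ℂ :=
  ∏ z, values β a w (s : ℂ) z ^ (e z : ℕ)

/-- the coefficient `∑_k m_k κ_k` -/
noncomputable def coef {g : ℕ} (κ : Fin g → ℂ) (m : Fin g → ℤ) : ℂ := ∑ k, (m k : ℂ) * κ k

/-- The points `s_1, …, s_r` are related: `∑_e C_e ∏_j M_(e_j)(s_j) = 0`, where `e = (e_1, …, e_r)` runs through the `r`-tuples of
exponents at most `d`, `M_(e_j)` is the monomial with the exponents `e_j`, the coefficients `C_e` are of the form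
`∑_k m_k κ_k` with integers `m_k` of absolute value at most `N`, and for each `j` this is a nontrivial relation for the
values at `s_j`: for some `u` the coefficient `∑_(e_j = u) C_e ∏_(i ≠ j) M_(e_i)(s_i)` of `M_u(s_j)` is not zero. -/
def Related {h p : ℕ} (β : Fin h → ℝ) (a : Fin p → ℝ) (w d : ℕ) {g r : ℕ} (κ : Fin g → ℂ) (N : ℝ)
    (s : Fin r → ℚ) : Prop :=
  ∃ c : (Fin r → Fin h ⊕ (Fin p × Fin w) → Fin (d + 1)) → Fin g → ℤ,
    (∀ e k, |((c e k : ℤ) : ℝ)| ≤ N) ∧
    ∑ e, coef κ (c e) * ∏ j, monomial β a w (e j) (s j) = 0 ∧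
    ∀ j, ∃ u, ∑ e with e j = u, coef κ (c e) * ∏ i ∈ Finset.univ.erase j, monomial β a w (e i) (s i) ≠ 0

/-- the bad points for given earlier points `v` -/
def Bad {h p : ℕ} (β : Fin h → ℝ) (a : Fin p → ℝ) (R w d : ℕ) {g r : ℕ} (κ : Fin g → ℂ) (A : ℕ) (j : Fin r) (T : ℕ)
    (v : Fin r → ℚ) (x : ℚ) : Prop :=
  (|(x : ℝ)| ≤ R ∧ ∀ i, 1 / ((R : ℝ) + 1) ≤ |(x : ℝ) + a i - 1|) ∧
  ∃ c : (Fin r → Fin h ⊕ (Fin p × Fin w) → Fin (d + 1)) → Fin g → ℤ,
    (∀ e k, |((c e k : ℤ) : ℝ)| ≤ (T : ℝ) ^ A) ∧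
    ∑ e, coef κ (c e) * (monomial β a w (e j) x * ∏ i ∈ Finset.univ.erase j, monomial β a w (e i) (v i)) = 0 ∧
    ∃ u, ∑ e with e j = u, coef κ (c e) * ∏ i ∈ Finset.univ.erase j, monomial β a w (e i) (v i) ≠ 0

/-- the compact set of the `z` with `|z| ≤ R` and `|z + a_i - 1| ≥ 1 / (R + 1)` for all `i` -/
def region {r : ℕ} (a : Fin r → ℝ) (R : ℕ) : Set ℂ :=
  {z | ‖z‖ ≤ R ∧ ∀ i, 1 / ((R : ℝ) + 1) ≤ ‖z + a i - 1‖}

theorem region_compact {r : ℕ} (a : Fin r → ℝ) (R : ℕ) : IsCompact (region a R) := by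
  refine Metric.isCompact_of_isClosed_isBounded ?_ ?_
  · have h1 : region a R = {z : ℂ | ‖z‖ ≤ R} ∩ ⋂ i, {z : ℂ | 1 / ((R : ℝ) + 1) ≤ ‖z + a i - 1‖} := by
      ext z
      simp [region]
    rw [h1]
    refine (isClosed_le continuous_norm continuous_const).inter (isClosed_iInter fun i => ?_)
    exact isClosed_le continuous_const (by fun_prop)
  · refine (Metric.isBounded_closedBall (x := (0 : ℂ)) (r := R)).subset fun z hz => ?_
    simpa using hz.1

/-- exponents as a finitely supported function -/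
noncomputable def toF {h p w d : ℕ} (u : Fin h ⊕ (Fin p × Fin w) → Fin (d + 1)) :
    (Fin 1 × (Fin h ⊕ (Fin p × Fin w))) →₀ ℕ :=
  Finsupp.equivFunOnFinite.symm fun z => (u z.2 : ℕ)

theorem toF_apply {h p w d : ℕ} (u : Fin h ⊕ (Fin p × Fin w) → Fin (d + 1)) (z) : toF u z = (u z.2 : ℕ) := rfl

theorem toF_inj {h p w d : ℕ} : Function.Injective (toF : (Fin h ⊕ (Fin p × Fin w) → Fin (d + 1)) → _) := by
  intro u u' huu
  funext z
  have h1 := DFunLike.congr_fun huu (0, z)
  rw [toF_apply, toF_apply] at h1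
  exact Fin.ext h1

theorem bad_count {h p : ℕ} (β : Fin h → ℝ) (hβ0 : ∀ l, 0 < β l)
    (hβ : ∀ v : Fin h → ℤ, (∃ x : ℚ, ∏ l, β l ^ v l = x) → v = 0) (a : Fin p → ℝ) (ha : Function.Injective a)
    (R w d : ℕ) {g r : ℕ} (κ : Fin g → ℂ) (A : ℕ) (j : Fin r) (ε : ℝ) (hε : 0 < ε) :
    ∃ C T₀ : ℝ, ∀ T : ℕ, T₀ ≤ T → ∀ v : Fin r → ℚ, ∀ Y : Finset ℚ,
      (∀ x ∈ Y, Pool.Agent.H48.IG.height x ≤ T ∧ Bad β a R w d κ A j T v x) → (Y.card : ℝ) ≤ C * (T : ℝ) ^ ε := by
  classical
  obtain ⟨B, C, T₀, hres⟩ := ShiftedZetaValues.result β hβ0 hβ a ha w 1 1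
    (Fintype.card ((Fin r → Fin h ⊕ (Fin p × Fin w) → Fin (d + 1)) × Fin g)) d
    (region a R) (region_compact a _) (by
      intro s hs i h1
      have h2 := hs.2 i
      have h3 : s + a i - 1 = 0 := by rw [h1]; ring
      rw [h3, norm_zero] at h2
      have h4 : (0 : ℝ) < 1 / ((R : ℝ) + 1) := by positivity
      linarith) (A : ℝ) ε hε
  refine ⟨C, T₀, fun T hT v Y hY => ?_⟩
  set E := Fin r → Fin h ⊕ (Fin p × Fin w) → Fin (d + 1) with hE
  set ee := Fintype.equivFin (E × Fin g) with hee
  set ξ' : E × Fin g → ℂ := fun q => κ q.2 * ∏ i ∈ Finset.univ.erase j, monomial β a w (q.1 i) (v i) with hξ'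
  obtain ⟨h1, h2⟩ := hres ℚ (by simp) (algebraMap ℚ ℂ) (fun k => ξ' (ee.symm k)) T hT
  rw [Nat.sub_self, pow_zero, mul_one] at h2
  have hsub : (fun (x : ℚ) (_ : Fin 1) => x) '' (Y : Set ℚ) ⊆
      Exceptional β a w 1 d ℚ (algebraMap ℚ ℂ) (fun k => ξ' (ee.symm k)) (region a R) (A : ℝ) B T := by
    rintro _ ⟨x, hx, rfl⟩
    obtain ⟨hht, ⟨hx1, hx2⟩, c, hc, hsum, u, hu⟩ := hY x hx
    have hn : (x.num.natAbs : ℝ) ≤ T := by exact_mod_cast (le_max_left _ _).trans hht
    have hd : (x.den : ℝ) ≤ T := by exact_mod_cast (le_max_right _ _).trans hht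
    have hxL : (x : ℂ) ∈ region a R := by
      refine ⟨?_, fun i => ?_⟩
      · have h3 : ‖(x : ℂ)‖ = |(x : ℝ)| := by
          rw [← Complex.ofReal_ratCast, Complex.norm_real, Real.norm_eq_abs]
        rw [h3]
        exact hx1
      · have h3 : ‖(x : ℂ) + a i - 1‖ = |(x : ℝ) + a i - 1| := by
          have h4 : (x : ℂ) + a i - 1 = (((x : ℝ) + a i - 1 : ℝ) : ℂ) := by push_cast; ring
          rw [h4, Complex.norm_real, Real.norm_eq_abs]
        rw [h3]
        exact hx2 i
    set P : MvPolynomial (Fin 1 × (Fin h ⊕ (Fin p × Fin w))) ℂ := ∑ e : E, MvPolynomial.monomial (toF (e j))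
      (coef κ (c e) * ∏ i ∈ Finset.univ.erase j, monomial β a w (e i) (v i)) with hP
    have hPc : ∀ t, P.coeff t = ∑ e : E, if toF (e j) = t then
        coef κ (c e) * ∏ i ∈ Finset.univ.erase j, monomial β a w (e i) (v i) else 0 := by
      intro t
      rw [hP, MvPolynomial.coeff_sum]
      refine Finset.sum_congr rfl fun e _ => ?_
      rw [MvPolynomial.coeff_monomial]
    refine ⟨fun _ => ⟨by simpa using hxL, (x.num : 𝓞 ℚ), (x.den : 𝓞 ℚ), ?_, fun φ => ⟨?_, ?_⟩, ?_⟩, P, ?_, ?_,
      toF u, ?_, ?_⟩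
    · exact_mod_cast x.den_ne_zero
    · have e1 : φ ((x.num : 𝓞 ℚ) : ℚ) = (x.num : ℂ) := by simp
      rw [e1, Complex.norm_intCast]
      rw [Nat.cast_natAbs] at hn
      exact_mod_cast hn
    · have e1 : φ ((x.den : 𝓞 ℚ) : ℚ) = (x.den : ℂ) := by simp
      rw [e1, Complex.norm_natCast]
      exact hd
    · have e1 : (((x.num : 𝓞 ℚ) : ℚ)) = (x.num : ℚ) := by simp
      have e2 : (((x.den : 𝓞 ℚ) : ℚ)) = (x.den : ℚ) := by simp
      rw [e1, e2, Rat.num_div_den]
    · intro y
      refine (MvPolynomial.degreeOf_sum_le _ _ _).trans (Finset.sup_le fun e _ => ?_)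
      refine (MvPolynomial.degreeOf_le_iff).2 fun t ht => ?_
      have h3 := MvPolynomial.support_monomial_subset ht
      rw [Finset.mem_singleton] at h3
      rw [h3, toF_apply]
      have h4 := (e j y.2).2
      omega
    · intro t
      refine ⟨fun k => (((if toF ((ee.symm k).1 j) = t then c (ee.symm k).1 (ee.symm k).2 else 0 : ℤ)) : 𝓞 ℚ),
        fun k φ => ?_, ?_⟩
      · by_cases ht : toF ((ee.symm k).1 j) = t
        · simp only [if_pos ht]
          have e1 : φ (((c (ee.symm k).1 (ee.symm k).2 : 𝓞 ℚ)) : ℚ) = (c (ee.symm k).1 (ee.symm k).2 : ℂ) := by simp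
          rw [e1, Complex.norm_intCast, Real.rpow_natCast]
          exact hc _ _
        · simp only [if_neg ht]
          simp
      · rw [hPc]
        have e1 : ∑ k, ξ' (ee.symm k) * (algebraMap ℚ ℂ)
            ((((if toF ((ee.symm k).1 j) = t then c (ee.symm k).1 (ee.symm k).2 else 0 : ℤ)) : 𝓞 ℚ) : ℚ) =
            ∑ q : E × Fin g, ξ' q * (((if toF (q.1 j) = t then c q.1 q.2 else 0 : ℤ)) : ℂ) := by
          rw [← Equiv.sum_comp ee.symm
            (fun q : E × Fin g => ξ' q * (((if toF (q.1 j) = t then c q.1 q.2 else 0 : ℤ)) : ℂ))]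
          refine Finset.sum_congr rfl fun k _ => ?_
          congr 1
        refine Eq.trans ?_ e1.symm
        rw [Fintype.sum_prod_type]
        refine Finset.sum_congr rfl fun e _ => ?_
        by_cases ht : toF (e j) = t
        · simp only [if_pos ht, hξ']
          unfold coef
          rw [Finset.sum_mul]
          exact Finset.sum_congr rfl fun k _ => by ring
        · simp only [if_neg ht, Int.cast_zero, mul_zero, Finset.sum_const_zero]
    · rw [hPc]
      have e1 : (∑ e : E, if toF (e j) = toF u then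
          coef κ (c e) * ∏ i ∈ Finset.univ.erase j, monomial β a w (e i) (v i) else 0) =
          ∑ e with e j = u, coef κ (c e) * ∏ i ∈ Finset.univ.erase j, monomial β a w (e i) (v i) := by
        rw [Finset.sum_filter]
        refine Finset.sum_congr rfl fun e _ => ?_
        by_cases hee' : e j = u
        · rw [if_pos hee', if_pos (by rw [hee'])]
        · rw [if_neg hee', if_neg fun h' => hee' (toF_inj h')]
      rw [e1]
      exact hu
    · have hval : MvPolynomial.aeval (fun y : Fin 1 × (Fin h ⊕ (Fin p × Fin w)) =>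
          values β a w ((algebraMap ℚ ℂ) x) y.2) P = 0 := by
        rw [hP, map_sum, ← hsum]
        refine Finset.sum_congr rfl fun e _ => ?_
        rw [MvPolynomial.aeval_monomial, Finsupp.prod_fintype _ _ (fun _ => pow_zero _), Fintype.prod_prod_type]
        simp only [toF_apply, Finset.univ_unique, Finset.prod_singleton, Algebra.algebraMap_self, RingHom.id_apply,
          eq_ratCast]
        rw [mul_comm (monomial β a w (e j) x), ← mul_assoc]
        rfl
      rw [hval, norm_zero]
      positivity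
  have h3 := Set.ncard_le_ncard hsub h1
  rw [Set.ncard_image_of_injective _ (fun x y h' => congrFun h' 0), Set.ncard_coe_finset] at h3
  exact le_trans (by exact_mod_cast h3) h2

/-- **Large subsets.** Let `β_1, …, β_h > 0` such that `∏ β_l ^ v_l` is irrational for all nonzero `v ∈ ℤ^h` (for instance
`h = 1`, `β_1 = π`) and `a_1, …, a_p` distinct real numbers. Let `X` be a set of rational numbers `s` with `|s| ≤ R` and
`|s + a_i - 1| ≥ 1 / (R + 1)` which has at least `T ^ ε` elements of height at most `T` for all `T` of an infinite set `𝒯`,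
where `ε > 0`. Let `f (T) ≤ T ^ η` for all `η > 0` and all large `T`, and let `K` be a countable set of complex numbers. Then
`X` contains an infinite set `S` which has at least `f (T)` elements of height at most `T` for all large `T` in `𝒯` and such
that for all `w`, `d`, `r`, all `κ_1, …, κ_g` in `K` and all `A` there are only finitely many `r`-tuples of different points
`s_1, …, s_r` of `S` for which the numbers `β_l ^ (s_j)`, `ζ^(k)(s_j + a_i)`, `k < w`, satisfy a relation of degree at most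
`d` in each of them with coefficients `∑_k m_k κ_k`, `m_k` integers of absolute value at most `h ^ A`, where `h` is the
largest of the heights of the `s_j`, which is nontrivial for the values at each `s_j`. -/
theorem result {h p : ℕ} (β : Fin h → ℝ) (hβ0 : ∀ l, 0 < β l)
    (hβ : ∀ v : Fin h → ℤ, (∃ x : ℚ, ∏ l, β l ^ v l = x) → v = 0) (a : Fin p → ℝ) (ha : Function.Injective a)
    (X : Set ℚ) (R : ℕ) (hXR : ∀ s ∈ X, |(s : ℝ)| ≤ R ∧ ∀ i, 1 / ((R : ℝ) + 1) ≤ |(s : ℝ) + a i - 1|)
    (ε : ℝ) (hε : 0 < ε) (𝒯 : Set ℕ) (h𝒯 : 𝒯.Infinite)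
    (hX : ∀ T ∈ 𝒯, (T : ℝ) ^ ε ≤ ({x ∈ X | height x ≤ T}.ncard : ℝ))
    (f : ℕ → ℝ) (hf : ∀ η : ℝ, 0 < η → ∀ᶠ T : ℕ in atTop, f T ≤ (T : ℝ) ^ η)
    (K : Set ℂ) (hK : K.Countable) :
    ∃ S : Set ℚ, S ⊆ X ∧ S.Infinite ∧
      (∀ᶠ T : ℕ in atTop, T ∈ 𝒯 → f T ≤ ({x ∈ S | height x ≤ T}.ncard : ℝ)) ∧
      ∀ (w d r g : ℕ) (κ : Fin g → ℂ), (∀ k, κ k ∈ K) → ∀ A : ℕ,
        {s : Fin r → ℚ | Function.Injective s ∧ (∀ j, s j ∈ S) ∧
          Related β a w d κ (((Finset.univ.sup fun j => height (s j) : ℕ) : ℝ) ^ A) s}.Finite := by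
  classical
  have : Countable K := hK.to_subtype
  let ι : Type := (Σ r : ℕ, Fin (r + 1)) × ℕ × ℕ × (Σ g : ℕ, Fin g → K) × ℕ
  have : Nonempty ι := ⟨⟨0, 0⟩, 0, 0, ⟨0, fun i => i.elim0⟩, 0⟩
  obtain ⟨H, s₀, t, hHm, hHt, hinj, ht, hcount, hE⟩ := Pool.Agent.H48.IG.large_gen (ι := ι) (fun b => b.1.1 + 1)
    (fun b T v x => Bad β a R b.2.1 b.2.2.1 (fun i => (b.2.2.2.1.2 i : ℂ)) b.2.2.2.2 b.1.2 T v x) ε hε
    (fun b => bad_count β hβ0 hβ a ha R b.2.1 b.2.2.1 _ _ _ (ε / 4) (by positivity)) X 𝒯 h𝒯 hX f hf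
  refine ⟨t '' Set.Ici s₀, ?_, (Set.Ici_infinite s₀).image hinj, hcount, ?_⟩
  · rintro _ ⟨s, hs, rfl⟩
    exact (ht s hs).1
  intro w d r g κ hκ A
  rcases r with _ | r
  · exact Set.toFinite _
  choose s₁ hs₁ using fun j₁ : Fin (r + 1) => hE (⟨r, j₁⟩, w, d, ⟨g, fun i => ⟨κ i, hκ i⟩⟩, A)
  refine ((Set.finite_Iic (fun _ : Fin (r + 1) => Finset.univ.sup s₁)).image (fun i j => t (i j))).subset ?_
  rintro τ ⟨hτinj, hτS, c, hc, hsum, hne⟩
  choose i hi hiτ using hτS
  refine ⟨i, ?_, funext hiτ⟩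
  rw [Set.mem_Iic]
  intro j₀
  by_contra hj₀
  push Not at hj₀
  obtain ⟨j₁, -, hj₁⟩ := Finset.exists_max_image Finset.univ i ⟨j₀, Finset.mem_univ _⟩
  have hle : ∀ j, i j ≤ i j₁ := fun j => hj₁ j (Finset.mem_univ j)
  have hs : s₁ j₁ < i j₁ := lt_of_le_of_lt (Finset.le_sup (Finset.mem_univ j₁)) (lt_of_lt_of_le hj₀ (hle j₀))
  have hlt : ∀ j, j ≠ j₁ → i j < i j₁ := by
    intro j hj
    refine lt_of_le_of_ne (hle j) fun h => hj (hτinj ?_)
    rw [← hiτ j, ← hiτ j₁, h]
  have hNT : ((Finset.univ.sup fun j => height (τ j) : ℕ) : ℝ) ^ A ≤ (H (i j₁) : ℝ) ^ A := by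
    refine pow_le_pow_left₀ (Nat.cast_nonneg _) ?_ _
    have h1 : (Finset.univ.sup fun j => height (τ j)) ≤ H (i j₁) := by
      refine Finset.sup_le fun j _ => ?_
      rw [← hiτ j]
      exact (ht (i j) (hi j)).2.trans (hHm (hle j))
    exact_mod_cast h1
  have hv : ∀ e : Fin (r + 1) → Fin h ⊕ (Fin p × Fin w) → Fin (d + 1),
      ∏ k ∈ Finset.univ.erase j₁, monomial β a w (e k)
        (t ((if h : i k < i j₁ then (⟨i k, h⟩ : Fin (i j₁)) else ⟨0, by omega⟩ : Fin (i j₁)) : ℕ)) =
      ∏ k ∈ Finset.univ.erase j₁, monomial β a w (e k) (τ k) := by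
    intro e
    refine Finset.prod_congr rfl fun k hk => ?_
    simp only [dif_pos (hlt k (Finset.ne_of_mem_erase hk)), hiτ]
  refine hs₁ j₁ (i j₁) hs.le (fun k => if h : i k < i j₁ then ⟨i k, h⟩ else ⟨0, by omega⟩) ?_
  refine ⟨hXR _ (ht (i j₁) (hi j₁)).1, c, fun e k => (hc e k).trans hNT, ?_, ?_⟩
  · rw [← hsum]
    refine Finset.sum_congr rfl fun e _ => ?_
    rw [hv, hiτ, Finset.mul_prod_erase _ (fun k => monomial β a w (e k) (τ k)) (Finset.mem_univ j₁)]
  · obtain ⟨u, hu⟩ := hne j₁
    refine ⟨u, ?_⟩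
    simp only [hv]
    exact hu

end Pool.Agent.Results.MP_e47f08_nt.LargeSubsets
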