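import Pool.Graph.R_pool_sql_team_seeded_35f281b4.Results.MP_e47f08_nt.HurwitzZetaValues
import Pool.Agent.H48.GM.Numerators

/-!
# Hurwitz zeta values at fractions with a common denominator: a game with boundedly many free moves

Let `ζ(s, t) = ∑_{n ≥ 0} 1 / (n + t) ^ s` be the Hurwitz zeta function, so that `ζ(3, 1) = ζ(3)`. We consider the numbers
`Γ(x_j + a_k)`, `ψ(x_j + a_k)`, `ζ(s, x_j + a_k)`, `2 ≤ s ≤ S`, at `r` fractions `x_j = t_j / q` of the same denominator, and
their polynomial relations of degree at most `d` in each of them, with coefficients `∑ ξ_i c_i` for arbitrary constants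
`ξ_1, …, ξ_g` (for instance `1` and `π ^ 3`) and integers `|c_i| ≤ q ^ A`, even up to `q ^ (-B)` times a nonzero coefficient.

Two players, Compass and Adversary, write down the last `L` digits in a base `b` of the `r` numerators
`t_j = a_j + ∑_l x_(j,l) b ^ l`, all the `r L` digits one after the other in any order; the numbers `a_j` are given and
`b ^ L ≤ q ^ (1 - δ)`, so that these may be almost all the digits. Adversary decides before each step who makes the move.
For one fraction (`r = 1`) Compass needs only a BOUNDED number `m` of moves in order to make sure that there is no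
relation (in particular that `ζ(3, x) / π ^ 3` is not a rational number of height at most `q ^ A`), where `m` does not
depend on `q`, `b`, `L`, the `a_j`, the order and the constants `ξ_i`. For `r` fractions `(r - 1) L + m` moves suffice, that
is, Adversary may make `L - m` moves. This is sharp up to the constant `m` for every order of the digits: if two of the
`a_j` are equal, Adversary needs only `L` moves against every rule in order to make the two fractions equal (of the two
digits of the same place he writes the second one), which gives relations.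

The bound for the number of exceptional tuples in products of sets in short intervals is from the library
(`HurwitzZetaValues`). Compass always names the digit after which the least number of exceptional tuples remains possible.
-/

set_option autoImplicit false

open NumberField

namespace Pool.Agent.Results.MP_e47f08_nt.NumeratorGame

open HurwitzZetaValues (F Quot Related)

/-- the number of the moves `j < n` at which the digit `x j` is the one named by the rule `σ` -/
def moves (σ : List ℕ → ℕ) (x : ℕ → ℕ) (n : ℕ) : ℕ :=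
  ((Finset.range n).filter fun j => x j = σ ((List.range j).map x)).card

/-- The numerators `t_j = a_j + ∑_l x_(j,l) b ^ l`, where `x_(j,l)` is the digit written down at the move `τ⁻¹ (j, l)`. -/
def numerators (b r L : ℕ) (a : Fin r → ℕ) (τ : Fin (r * L) ≃ Fin r × Fin L) (x : ℕ → ℕ) : Fin r → ℕ :=
  fun j => a j + ∑ l : Fin L, x (τ.symm (j, l) : Fin (r * L)) * b ^ (l : ℕ)

/-- The numbers `F s (x_j + a_k)`, `s ≤ S` (`F 0 = Γ`, `F 1 = ψ`, `F s = ζ(s, ·)`), satisfy, with error `ε`, a nontrivial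
polynomial relation of degree at most `d` in each of them, with coefficients `∑ ξ_i c_i`, where the `c_i` are integers of
absolute value at most `M`. -/
def Relation {r p g : ℕ} (S d : ℕ) (M ε : ℝ) (ξ : Fin g → ℂ) (a : Fin p → ℂ) (x : Fin r → ℚ) : Prop :=
  ∃ P : MvPolynomial (Fin r × Fin p × Fin (S + 1)) ℂ, (∀ u, P.degreeOf u ≤ d) ∧
    (∀ s, ∃ c : Fin g → ℤ, (∀ i, |(c i : ℝ)| ≤ M) ∧ P.coeff s = ∑ i, ξ i * c i) ∧
    ∃ s₀, P.coeff s₀ ≠ 0 ∧
      ‖MvPolynomial.aeval (fun u : Fin r × Fin p × Fin (S + 1) => F u.2.2 ((x u.1 : ℂ) + a u.2.1)) P‖ ≤ ε * ‖P.coeff s₀‖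

theorem related_of {r p g : ℕ} {S d : ℕ} {M M' ε ε' : ℝ} {ξ : Fin g → ℂ} {a : Fin p → ℂ} {x : Fin r → ℚ}
    (hM : M ≤ M') (hε : ε ≤ ε') (h : Relation S d M ε ξ a x) : Related S d M' ε' (algebraMap ℚ ℂ) ξ a x := by
  obtain ⟨P, h1, h2, s₀, h3, h4⟩ := h
  refine ⟨P, h1, fun s => ?_, s₀, h3, ?_⟩
  · obtain ⟨c, h5, h6⟩ := h2 s
    refine ⟨fun i => (c i : 𝓞 ℚ), fun i φ => ?_, ?_⟩
    · have h7 : φ (((c i : 𝓞 ℚ)) : ℚ) = (c i : ℂ) := by simp
      rw [h7, Complex.norm_intCast]
      exact (h5 i).trans hM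
    · rw [h6]
      simp
  · refine le_trans (le_trans (le_of_eq ?_) h4) (mul_le_mul_of_nonneg_right hε (norm_nonneg _))
    simp

/-- the play in which the digit at the time `n` is the one named by the rule `σ`, except that for `n` in `T` it is the
digit written down at the time `B n` -/
def copy (T : Set ℕ) [DecidablePred (· ∈ T)] (B : ℕ → ℕ) (σ : List ℕ → ℕ) : ℕ → List ℕ
  | 0 => []
  | n + 1 => copy T B σ n ++ [if n ∈ T then (copy T B σ n).getD (B n) 0 else σ (copy T B σ n)]

section
variable (T : Set ℕ) [DecidablePred (· ∈ T)] (B : ℕ → ℕ) (σ : List ℕ → ℕ)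

/-- the digits of this play -/
def digit (n : ℕ) : ℕ := if n ∈ T then (copy T B σ n).getD (B n) 0 else σ (copy T B σ n)

theorem copy_eq (n : ℕ) : (List.range n).map (digit T B σ) = copy T B σ n := by
  induction n with
  | zero => rfl
  | succ n ih => rw [List.range_succ, List.map_append, ih]; rfl

theorem digit_copy {n : ℕ} (hn : n ∈ T) (hB : B n < n) : digit T B σ n = digit T B σ (B n) := by
  conv_lhs => unfold digit
  rw [if_pos hn, ← copy_eq, List.getD_eq_getElem?_getD]
  simp [hB]

theorem digit_lt {b : ℕ} (hσ : ∀ u, σ u < b) (hT : ∀ n ∈ T, B n < n) (n : ℕ) : digit T B σ n < b := by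
  induction n using Nat.strong_induction_on with
  | _ n ih =>
    by_cases h : n ∈ T
    · rw [digit_copy T B σ h (hT n h)]
      exact ih _ (hT n h)
    · unfold digit
      rw [if_neg h]
      exact hσ _

theorem moves_digit (N : ℕ) :
    ((Finset.range N).filter fun n => n ∉ T).card ≤ moves σ (digit T B σ) N := by
  unfold moves
  apply Finset.card_le_card
  intro n hn
  rw [Finset.mem_filter] at hn ⊢
  refine ⟨hn.1, ?_⟩
  rw [copy_eq]
  conv_lhs => unfold digit
  rw [if_neg hn.2]

end

/-- Whatever the order of the digits, `L` moves suffice to make two of the numerators equal. -/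
theorem equal_numerators {r : ℕ} (j₀ j₁ : Fin r) (hj : j₀ ≠ j₁) (b L : ℕ) (t₀ : Fin r → ℕ)
    (ht : t₀ j₀ = t₀ j₁) (τ : Fin (r * L) ≃ Fin r × Fin L) (σ : List ℕ → ℕ) (hσ : ∀ u, σ u < b) :
    ∃ x : ℕ → ℕ, (∀ j, x j < b) ∧ (r - 1) * L ≤ moves σ x (r * L) ∧
      numerators b r L t₀ τ x j₀ = numerators b r L t₀ τ x j₁ := by
  classical
  let p0 : Fin L → ℕ := fun l => (τ.symm (j₀, l) : Fin (r * L))
  let p1 : Fin L → ℕ := fun l => (τ.symm (j₁, l) : Fin (r * L))
  have hne : ∀ l l', p0 l ≠ p1 l' := by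
    intro l l' h
    have h1 := τ.symm.injective (Fin.ext h)
    exact hj (congrArg Prod.fst h1)
  have h0 : Function.Injective p0 := fun l l' h => congrArg Prod.snd (τ.symm.injective (Fin.ext h))
  have h1 : Function.Injective p1 := fun l l' h => congrArg Prod.snd (τ.symm.injective (Fin.ext h))
  let la : Fin L → ℕ := fun l => max (p0 l) (p1 l)
  let ea : Fin L → ℕ := fun l => min (p0 l) (p1 l)
  have hla : Function.Injective la := by
    intro l l' h
    have h : max (p0 l) (p1 l) = max (p0 l') (p1 l') := h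
    rcases max_choice (p0 l) (p1 l) with h2 | h2 <;> rcases max_choice (p0 l') (p1 l') with h3 | h3 <;>
      rw [h2, h3] at h
    · exact h0 h
    · exact absurd h (hne _ _)
    · exact absurd h.symm (hne _ _)
    · exact h1 h
  have hea : ∀ l, ea l < la l := by
    intro l
    show min (p0 l) (p1 l) < max (p0 l) (p1 l)
    rw [min_lt_max]
    exact hne l l
  let T : Set ℕ := Set.range la
  let B : ℕ → ℕ := fun n => if h : n ∈ T then ea h.choose else 0
  have hB : ∀ l, B (la l) = ea l := by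
    intro l
    have h : la l ∈ T := ⟨l, rfl⟩
    show (if h : la l ∈ T then ea h.choose else 0) = _
    rw [dif_pos h]
    congr 1
    exact hla h.choose_spec
  have hBT : ∀ n ∈ T, B n < n := by
    rintro _ ⟨l, rfl⟩
    rw [hB]
    exact hea l
  refine ⟨digit T B σ, digit_lt T B σ hσ hBT, le_trans ?_ (moves_digit T B σ (r * L)), ?_⟩
  · have h2 : ((Finset.range (r * L)).filter fun n => n ∈ T).card ≤ L := by
      calc ((Finset.range (r * L)).filter fun n => n ∈ T).card ≤ (Finset.univ.image la).card := by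
            apply Finset.card_le_card
            intro n hn
            obtain ⟨l, hl⟩ := (Finset.mem_filter.1 hn).2
            exact Finset.mem_image.2 ⟨l, Finset.mem_univ _, hl⟩
        _ ≤ L := Finset.card_image_le.trans (by simp)
    have h3 := Finset.card_filter_add_card_filter_not (s := Finset.range (r * L)) (fun n => n ∈ T)
    rw [Finset.card_range] at h3
    rw [Nat.sub_one_mul]
    omega
  · unfold numerators
    rw [ht]
    congr 1
    refine Finset.sum_congr rfl fun l _ => ?_
    congr 1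
    have h2 : digit T B σ (la l) = digit T B σ (ea l) := by
      rw [digit_copy T B σ ⟨l, rfl⟩ (hBT _ ⟨l, rfl⟩), hB]
    show digit T B σ (p0 l) = digit T B σ (p1 l)
    rcases le_total (p0 l) (p1 l) with h3 | h3
    · have h4 : la l = p1 l := max_eq_right h3
      have h5 : ea l = p0 l := min_eq_left h3
      rw [← h4, ← h5, h2]
    · have h4 : la l = p0 l := max_eq_left h3
      have h5 : ea l = p1 l := min_eq_right h3
      rw [← h4, ← h5, h2]

/-- equal points satisfy a relation -/
theorem relation_of_eq {r p : ℕ} (k : Fin p) {g : ℕ} (S d : ℕ) (hd : 1 ≤ d) (ξ : Fin g → ℂ) (i₀ : Fin g)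
    (hξ : ξ i₀ ≠ 0) (M : ℝ) (hM : 1 ≤ M) (a : Fin p → ℂ) (x : Fin r → ℚ) (j₀ j₁ : Fin r) (hj : j₀ ≠ j₁)
    (hx : x j₀ = x j₁) : Relation S d M 0 ξ a x := by
  classical
  set u₁ : Fin r × Fin p × Fin (S + 1) := (j₀, k, 0) with hu₁
  set u₂ : Fin r × Fin p × Fin (S + 1) := (j₁, k, 0) with hu₂
  have hne : u₁ ≠ u₂ := fun h => hj (congrArg Prod.fst h)
  have hs : Finsupp.single u₁ 1 ≠ (Finsupp.single u₂ 1 : Fin r × Fin p × Fin (S + 1) →₀ ℕ) := by
    intro h
    exact hne (Finsupp.single_left_injective one_ne_zero h)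
  refine ⟨MvPolynomial.C (ξ i₀) * (MvPolynomial.X u₁ - MvPolynomial.X u₂), fun u => ?_, fun s => ?_,
    Finsupp.single u₁ 1, ?_, ?_⟩
  · refine (MvPolynomial.degreeOf_C_mul_le _ _ _).trans ((MvPolynomial.degreeOf_sub_le _ _ _).trans ?_)
    rw [MvPolynomial.degreeOf_X, MvPolynomial.degreeOf_X]
    split_ifs <;> omega
  · obtain ⟨v, hv, hv1⟩ : ∃ v : ℤ, |v| ≤ 1 ∧ MvPolynomial.coeff s
        (MvPolynomial.C (ξ i₀) * (MvPolynomial.X u₁ - MvPolynomial.X u₂)) = ξ i₀ * v := by
      rw [MvPolynomial.coeff_C_mul, MvPolynomial.coeff_sub, MvPolynomial.coeff_X', MvPolynomial.coeff_X']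
      by_cases h1 : s = Finsupp.single u₁ 1
      · refine ⟨1, by simp, ?_⟩
        rw [if_pos h1.symm, if_neg (fun h => hs (h1.symm.trans h.symm))]
        simp
      · by_cases h2 : s = Finsupp.single u₂ 1
        · refine ⟨-1, by simp, ?_⟩
          rw [if_neg (fun h => h1 h.symm), if_pos h2.symm]
          simp
        · refine ⟨0, by simp, ?_⟩
          rw [if_neg (fun h => h1 h.symm), if_neg (fun h => h2 h.symm)]
          simp
    refine ⟨fun i => if i = i₀ then v else 0, fun i => ?_, ?_⟩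
    · have hv' : |(v : ℝ)| ≤ 1 := by exact_mod_cast hv
      by_cases hi : i = i₀
      · simp only [if_pos hi]
        exact hv'.trans hM
      · simp only [if_neg hi]
        simp
        linarith
    · rw [hv1, Finset.sum_eq_single i₀ (fun i _ hi => by simp [hi]) (fun h => absurd (Finset.mem_univ _) h)]
      simp
  · rw [MvPolynomial.coeff_C_mul, MvPolynomial.coeff_sub, MvPolynomial.coeff_X', MvPolynomial.coeff_X', if_pos rfl,
      if_neg (fun h => hs h.symm)]
    simpa using hξ
  · rw [map_mul, map_sub, MvPolynomial.aeval_X, MvPolynomial.aeval_X]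
    simp only [hu₁, hu₂, hx, sub_self, mul_zero, norm_zero, zero_mul]
    exact le_rfl

/-- **The game of the numerators.** Let `a_1, …, a_p` be complex numbers with nonnegative real part, not congruent modulo
`ℤ`, `0 < α`, `0 < δ`, and let `S`, `A`, `r`, `d`, `g` be given. There are `B`, `m`, `q₁` such that for all complex numbers
`ξ_1, …, ξ_g`, all `q ≥ q₁`, `b ≥ 2`, `L` with `b ^ L ≤ q ^ (1 - δ)`, all `a_1, …, a_r` with `α q ≤ a_j`, `a_j + b ^ L ≤ β q + 1` and
every order `τ` of the `r L` digits there is a rule `σ` such that the following holds. If at least `(r - 1) L + m` of the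
digits are the ones named by the rule, then the numbers `Γ`, `ψ`, `ζ(s, ·)` (`2 ≤ s ≤ S`) at the points `t_j / q + a_k` do not
satisfy, even with error `q ^ (-B)`, any nontrivial polynomial relation of degree at most `d` in each of them, with
coefficients `∑ ξ_i c_i`, `c_i` integers with `|c_i| ≤ q ^ A`. -/
theorem upper (S A r p d g : ℕ) (a : Fin p → ℂ) (ha : ∀ k, 0 ≤ (a k).re)
    (hsep : ∀ k l, ∀ n : ℤ, a k - a l = n → k = l) (α β δ : ℝ) (hα : 0 < α) (hδ : 0 < δ) :
    ∃ (B : ℝ) (m q₁ : ℕ), ∀ (ξ : Fin g → ℂ) (q : ℕ), q₁ ≤ q → ∀ (b L : ℕ) (t₀ : Fin r → ℕ), 2 ≤ b →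
      (b : ℝ) ^ L ≤ (q : ℝ) ^ (1 - δ) → (∀ j, α * q ≤ t₀ j ∧ (t₀ j : ℝ) + (b : ℝ) ^ L ≤ β * q + 1) →
      ∀ τ : Fin (r * L) ≃ Fin r × Fin L, ∃ σ : List ℕ → ℕ, (∀ u, σ u < b) ∧ ∀ x : ℕ → ℕ, (∀ j, x j < b) →
        (r - 1) * L + m ≤ moves σ x (r * L) →
          ¬ Relation S d ((q : ℝ) ^ A) ((q : ℝ) ^ (-B)) ξ a (fun j => (numerators b r L t₀ τ x j : ℚ) / q) := by
  obtain ⟨h, -, -⟩ := HurwitzZetaValues.result 1 S (A : ℝ)
  obtain ⟨B, C, T₀, h⟩ := h r p d g a ha hsep α β (δ / 2) hα (by linarith)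
  obtain ⟨R, hR⟩ := exists_nat_ge (max β 1)
  have hRβ : β ≤ R := (le_max_left _ _).trans hR
  have hR1 : (1 : ℝ) ≤ R := (le_max_right _ _).trans hR
  obtain ⟨m, q₁, hq⟩ := Pool.Agent.H48.GM.numerator_game (r := r) (Ω := Fin g → ℂ) α β δ
    (fun ξ q x => Relation S d ((q : ℝ) ^ A) ((q : ℝ) ^ (-(2 * |B|))) ξ a x) (by
      refine ⟨C, max ⌈T₀⌉₊ (max R 1), fun ξ q hq Y hY hYd => ?_⟩
      have hqT : T₀ ≤ (q : ℝ) := (Nat.le_ceil T₀).trans (by exact_mod_cast (le_max_left _ _).trans hq)
      have hqR : (R : ℝ) ≤ q := by exact_mod_cast ((le_max_left R 1).trans (le_max_right _ _)).trans hq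
      have hq1 : (1 : ℝ) ≤ q := hR1.trans hqR
      have hq0 : (0 : ℝ) < q := by linarith
      have hT1 : (q : ℝ) ≤ R * q := by nlinarith
      have hT2 : (R : ℝ) * q ≤ (q : ℝ) ^ 2 := by nlinarith
      have hT0 : (0 : ℝ) < R * q := by linarith
      have hcount := h ℚ (by simp) (algebraMap ℚ ℂ) ξ (R * q) (hqT.trans hT1) Y (fun j x hx => by
          obtain ⟨h1, h2, h3⟩ := hY j x hx
          have hx0 : (0 : ℝ) < x := by linarith
          have hden : (x.den : ℝ) ≤ q := by exact_mod_cast h3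
          have hdpos : (0 : ℝ) < x.den := by exact_mod_cast x.den_pos
          refine ⟨by simpa using h1, ?_, (x.num : 𝓞 ℚ), (x.den : 𝓞 ℚ), ?_, fun φ => ⟨?_, ?_⟩, ?_⟩
          · have h4 : ‖((algebraMap ℚ ℂ) x)‖ = |(x : ℝ)| := by
              rw [eq_ratCast, ← Complex.ofReal_ratCast, Complex.norm_real, Real.norm_eq_abs]
            rw [h4, abs_of_pos hx0]
            exact h2
          · exact_mod_cast x.den_ne_zero
          · have h4 : φ ((x.num : 𝓞 ℚ) : ℚ) = (x.num : ℂ) := by simp
            rw [h4, Complex.norm_intCast]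
            have h5 : (x.num : ℝ) = x * x.den := by
              have := Rat.num_div_den x
              have h6 : ((x.num : ℚ) / (x.den : ℚ) : ℚ) = x := this
              have h7 : ((x.num : ℝ) / (x.den : ℝ)) = (x : ℝ) := by exact_mod_cast congrArg (Rat.cast : ℚ → ℝ) h6
              rw [← h7]
              field_simp
            rw [h5, abs_mul, abs_of_pos hx0, abs_of_pos hdpos]
            exact mul_le_mul (h2.trans hRβ) hden hdpos.le (by linarith)
          · have h4 : φ ((x.den : 𝓞 ℚ) : ℚ) = (x.den : ℂ) := by simp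
            rw [h4, Complex.norm_natCast]
            exact hden.trans hT1
          · have h4 : (((x.num : 𝓞 ℚ) : ℚ)) = (x.num : ℚ) := by simp
            have h5 : (((x.den : 𝓞 ℚ) : ℚ)) = (x.den : ℚ) := by simp
            rw [h4, h5, Rat.num_div_den]) (fun j x hx y hy => by
          have h1 := hYd j x hx y hy
          have h2 : ‖(algebraMap ℚ ℂ) x - (algebraMap ℚ ℂ) y‖ = |(x : ℝ) - y| := by
            rw [← map_sub, eq_ratCast, ← Complex.ofReal_ratCast, Complex.norm_real, Real.norm_eq_abs]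
            push_cast
            rfl
          rw [h2]
          refine h1.trans ?_
          calc (q : ℝ) ^ (-δ) = ((q : ℝ) ^ 2) ^ (-(δ / 2)) := by
                rw [← Real.rpow_natCast, ← Real.rpow_mul hq0.le]
                congr 1
                push_cast
                ring
            _ ≤ (R * q) ^ (-(δ / 2)) := Real.rpow_le_rpow_of_nonpos hT0 hT2 (by linarith))
      refine le_trans ?_ hcount
      have hfin : {x : Fin r → ℚ | (∀ j, x j ∈ Y j) ∧
          Related S d ((R * q) ^ (A : ℝ)) ((R * q) ^ (-B)) (algebraMap ℚ ℂ) ξ a x}.Finite := by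
        refine (Finset.finite_toSet (Fintype.piFinset Y)).subset fun x hx => ?_
        rw [Finset.mem_coe, Fintype.mem_piFinset]
        exact hx.1
      have hsub : {x : Fin r → ℚ | (∀ j, x j ∈ Y j) ∧ Relation S d ((q : ℝ) ^ A) ((q : ℝ) ^ (-(2 * |B|))) ξ a x} ⊆
          {x : Fin r → ℚ | (∀ j, x j ∈ Y j) ∧
            Related S d ((R * q) ^ (A : ℝ)) ((R * q) ^ (-B)) (algebraMap ℚ ℂ) ξ a x} := by
        rintro x ⟨hx1, hx2⟩
        refine ⟨hx1, related_of ?_ ?_ hx2⟩
        · rw [Real.rpow_natCast]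
          exact pow_le_pow_left₀ hq0.le hT1 A
        · calc (q : ℝ) ^ (-(2 * |B|)) = ((q : ℝ) ^ 2) ^ (-|B|) := by
                rw [← Real.rpow_natCast, ← Real.rpow_mul hq0.le]
                congr 1
                push_cast
                ring
            _ ≤ (R * q) ^ (-|B|) := Real.rpow_le_rpow_of_nonpos hT0 hT2 (by have := abs_nonneg B; linarith)
            _ ≤ (R * q) ^ (-B) := Real.rpow_le_rpow_of_exponent_le (hq1.trans hT1) (by linarith [le_abs_self B])
      exact_mod_cast Set.ncard_le_ncard hsub hfin)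
  exact ⟨2 * |B|, m, q₁, hq⟩

/-- **The game of the numerators.** Let `a_1, …, a_p` be complex numbers with nonnegative real part, not congruent modulo
`ℤ`, `0 < α`, `0 < δ`, and let `S`, `A`, `r`, `d`, `g` be given.

(1) There are `B`, `m`, `q₁` such that for all complex numbers `ξ_1, …, ξ_g`, all `q ≥ q₁`, `b ≥ 2`, `L` with
`b ^ L ≤ q ^ (1 - δ)`, all `a_1, …, a_r` with `α q ≤ a_j`, `a_j + b ^ L ≤ β q + 1` and every order `τ` of the `r L` digits there
is a rule `σ` such that the following holds. If at least `(r - 1) L + m` of the digits are the ones named by the rule, then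
the numbers `Γ`, `ψ`, `ζ(s, ·)` (`2 ≤ s ≤ S`) at the points `t_j / q + a_k` do not satisfy, even with error `q ^ (-B)`, any
nontrivial polynomial relation of degree at most `d` in each of them, with coefficients `∑ ξ_i c_i`, `c_i` integers with
`|c_i| ≤ q ^ A`.

(2) This is sharp up to the constant `m`, for every order of the digits and every choice of the other data: if the given
parts of two of the numerators are equal, then for every order `τ` and every rule `σ` there is a play in which at least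
`(r - 1) L` of the digits are the ones named by the rule and the numbers satisfy a nontrivial relation exactly. -/
theorem result (S A r p d g : ℕ) (a : Fin p → ℂ) (ha : ∀ k, 0 ≤ (a k).re)
    (hsep : ∀ k l, ∀ n : ℤ, a k - a l = n → k = l) (α β δ : ℝ) (hα : 0 < α) (hδ : 0 < δ) :
    (∃ (B : ℝ) (m q₁ : ℕ), ∀ (ξ : Fin g → ℂ) (q : ℕ), q₁ ≤ q → ∀ (b L : ℕ) (t₀ : Fin r → ℕ), 2 ≤ b →
      (b : ℝ) ^ L ≤ (q : ℝ) ^ (1 - δ) → (∀ j, α * q ≤ t₀ j ∧ (t₀ j : ℝ) + (b : ℝ) ^ L ≤ β * q + 1) →
      ∀ τ : Fin (r * L) ≃ Fin r × Fin L, ∃ σ : List ℕ → ℕ, (∀ u, σ u < b) ∧ ∀ x : ℕ → ℕ, (∀ j, x j < b) →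
        (r - 1) * L + m ≤ moves σ x (r * L) →
          ¬ Relation S d ((q : ℝ) ^ A) ((q : ℝ) ^ (-B)) ξ a (fun j => (numerators b r L t₀ τ x j : ℚ) / q)) ∧
    (0 < p → 0 < d → ∀ ξ : Fin g → ℂ, ξ ≠ 0 → ∀ q : ℕ, 1 ≤ q → ∀ (b L : ℕ) (t₀ : Fin r → ℕ),
      (∃ j₀ j₁, j₀ ≠ j₁ ∧ t₀ j₀ = t₀ j₁) → ∀ τ : Fin (r * L) ≃ Fin r × Fin L,
      ∀ σ : List ℕ → ℕ, (∀ u, σ u < b) → ∃ x : ℕ → ℕ, (∀ j, x j < b) ∧ (r - 1) * L ≤ moves σ x (r * L) ∧
        Relation S d ((q : ℝ) ^ A) 0 ξ a (fun j => (numerators b r L t₀ τ x j : ℚ) / q)) := by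
  refine ⟨upper S A r p d g a ha hsep α β δ hα hδ, ?_⟩
  rintro hp hd ξ hξ q hq b L t₀ ⟨j₀, j₁, hj, ht⟩ τ σ hσ
  obtain ⟨i₀, hi₀⟩ := Function.ne_iff.1 hξ
  obtain ⟨x, hx1, hx2, hx3⟩ := equal_numerators j₀ j₁ hj b L t₀ ht τ σ hσ
  refine ⟨x, hx1, hx2, relation_of_eq ⟨0, hp⟩ S d hd ξ i₀ hi₀ _ ?_ a _ j₀ j₁ hj ?_⟩
  · exact one_le_pow₀ (by exact_mod_cast hq)
  · simp only [hx3]

end Pool.Agent.Results.MP_e47f08_nt.NumeratorGame
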