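import Mathlib
import Pool.Agent.H48.GM.ShortWindows
import Pool.Graph.R_pool_sql_team_seeded_35f281b4.Results.MP_e47f08_nt.HurwitzZetaValues
import Pool.Graph.R_pool_sql_team_seeded_35f281b4.Results.MP_e47f08_nt.RationalExponents

set_option autoImplicit false

/-!
# A digit game on the real line for the functions `ζ(s) / π ^ s` and `ζ(q, s)`

`ζ(3) / π ^ 3` is the value at `s = 3` of `ζ(s) / π ^ s`, and at `s = 1` of `ζ(3, s) / π ^ 3`. Two players choose the digits
of a real number one after the other. From the starting files (`RationalExponents`, `HurwitzZetaValues`): for one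
function and one constant every interval of length `T ^ (-δ)` has a bounded number of exceptional rational points of
denominator at most `T`. New: the game theorem (`H48.GM.Window`): a player who makes `O(log n)` of the choices number
`δ n, …, n - 1`, following one universal rule, makes the truncation after `n` digits unexceptional, whatever the opponent
does. So `O((log n)^2)` of the first `n` choices suffice for all truncations from some point on.
-/

namespace Pool.Agent.Results.MP_e47f08_nt.TruncationGame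

open Pool.Agent.H48.GM Real

/-- The complex number `z` is algebraic of degree at most `m` and height at most `H`: it is a root of a nonzero
polynomial of degree at most `m` whose coefficients are integers of absolute value at most `H`. -/
def AlgLe (m : ℕ) (H : ℝ) (z : ℂ) : Prop :=
  ∃ p : Polynomial ℤ, p ≠ 0 ∧ p.natDegree ≤ m ∧ (∀ i, |(p.coeff i : ℝ)| ≤ H) ∧ Polynomial.aeval z p = 0

/-- the truncated expansion `a + 0.x_0 x_1 … x_(n-1)` in base `b` -/
def point (b : ℕ) (a : ℤ) (x : ℕ → ℕ) (n : ℕ) : ℚ :=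
  a + ∑ i ∈ Finset.range n, (x i : ℚ) / (b : ℚ) ^ (i + 1)

/-- **The truncation game.** Let `b ≥ 2` be a base and `θ_0, θ_1, …` any sequence of nonzero complex numbers, for
instance all the powers of `π` with integral exponents. There is a rule `σ`, which prescribes a digit after every finite
sequence of digits, such that the following holds for all `θ = θ_k`, all degrees `m`, all exponents `A` and all `δ > 0`,
with constants `K` and `C` depending on these and on `a`, `q`.

Let `s_n = a + 0.x_0 x_1 … x_(n-1)` be the truncated expansions given by digits `x_0, x_1, …`. If more than `K log n + C`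
of the digits `x_i`, `δ n ≤ i < n`, have been chosen according to the rule (the other ones in any way, by an opponent,
who also decides when the player with the rule is to move), then

(1) if `a ≥ 2` or `a ≤ -1`: `ζ(s_n) / (θ π ^ (s_n))` is not an algebraic number of degree at most `m` and height at
most `(b ^ n) ^ A`;

(2) if `a ≥ 1` and `q ≥ 2`: `ζ(q, s_n) / θ` is not an algebraic number of degree at most `m` and height at most
`(b ^ n) ^ A`, where `ζ(q, s) = ∑ 1 / (j + s) ^ q` is the Hurwitz zeta function. -/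
theorem result (b : ℕ) (hb : 2 ≤ b) (θ : ℕ → ℂ) (hθ : ∀ k, θ k ≠ 0) :
    ∃ σ : List ℕ → ℕ, (∀ u, σ u < b) ∧
      ∀ (a : ℤ) (q k m A : ℕ) (δ : ℝ), 0 < δ → ∃ K C : ℝ, ∀ x : ℕ → ℕ, (∀ i, x i < b) → ∀ n : ℕ, 1 ≤ n →
        K * log n + C < (moves σ x n : ℝ) - moves σ x ⌊δ * n⌋₊ →
        ((2 ≤ a ∨ a ≤ -1) → ¬ ∃ z : ℂ, AlgLe m (((b : ℝ) ^ n) ^ A) z ∧
          riemannZeta (point b a x n) = z * θ k * (Real.pi : ℂ) ^ ((point b a x n : ℚ) : ℂ)) ∧
        (1 ≤ a → 2 ≤ q → ¬ ∃ z : ℂ, AlgLe m (((b : ℝ) ^ n) ^ A) z ∧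
          ∑' j : ℕ, 1 / ((j : ℂ) + ((point b a x n : ℚ) : ℂ)) ^ q = z * θ k) := by
  classical
  obtain ⟨σ, hσb, hσ⟩ := window_game (ι := ℤ × ℕ × ℕ × ℕ × ℕ) hb
    (fun i => {w | ((2 ≤ i.1 ∨ i.1 ≤ -1) ∧ ∃ z : ℂ, AlgLe i.2.2.2.1 (((b : ℝ) ^ w.length) ^ i.2.2.2.2) z ∧
          riemannZeta ((i.1 + val b w : ℚ) : ℂ) = z * θ i.2.2.1 * (Real.pi : ℂ) ^ ((i.1 + val b w : ℚ) : ℂ)) ∨
        ((1 ≤ i.1 ∧ 2 ≤ i.2.1) ∧ ∃ z : ℂ, AlgLe i.2.2.2.1 (((b : ℝ) ^ w.length) ^ i.2.2.2.2) z ∧
          ∑' j : ℕ, 1 / ((j : ℂ) + ((i.1 + val b w : ℚ) : ℂ)) ^ i.2.1 = z * θ i.2.2.1)}) (by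
      rintro ⟨a, q, k, m, A⟩ g
      obtain ⟨C₁, h₁⟩ := short_windows hb a (fun T x => (2 ≤ a ∨ a ≤ -1) ∧ ∃ z : ℂ, AlgLe m (T ^ A) z ∧
          riemannZeta (x : ℂ) = z * θ k * (Real.pi : ℂ) ^ (x : ℂ)) (by
        intro δ hδ
        by_cases ha : 2 ≤ a ∨ a ≤ -1
        · obtain ⟨C, T₀, h⟩ := (Pool.Agent.Results.MP_e47f08_nt.RationalExponents.result m (A : ℝ)).2.1
            (a : ℝ) (a + 1) δ (by
              rcases ha with h | h
              · right
                have : (2 : ℝ) ≤ a := by exact_mod_cast h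
                linarith
              · left
                have : (a : ℝ) ≤ -1 := by exact_mod_cast h
                linarith) hδ
          refine ⟨C, T₀, fun T hT Y hY hYP hYd => ?_⟩
          have h1 := h (θ k) (hθ k) T hT Y hY hYd
          have h2 : {s : ℚ | s ∈ Y ∧ ∃ z : ℂ, Pool.Agent.Results.MP_e47f08_nt.RationalExponents.AlgLe m
              (T ^ (A : ℝ)) z ∧ riemannZeta s = z * θ k * (Real.pi : ℂ) ^ (s : ℂ)} = (Y : Set ℚ) := by
            ext s
            simp only [Set.mem_setOf_eq, Finset.mem_coe, rpow_natCast]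
            exact ⟨fun hx => hx.1, fun hx => ⟨hx, (hYP s hx).2⟩⟩
          rw [h2, Set.ncard_coe_finset] at h1
          exact h1
        · refine ⟨0, 0, fun T _ Y _ hYP _ => ?_⟩
          rcases Y.eq_empty_or_nonempty with hYe | ⟨y, hy⟩
          · rw [hYe, Finset.card_empty]
          · exact absurd (hYP y hy).1 ha) g
      obtain ⟨C₂, h₂⟩ := short_windows hb a (fun T x => (1 ≤ a ∧ 2 ≤ q) ∧ ∃ z : ℂ, AlgLe m (T ^ A) z ∧
          ∑' j : ℕ, 1 / ((j : ℂ) + (x : ℂ)) ^ q = z * θ k) (by
        intro δ hδ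
        by_cases ha : 1 ≤ a ∧ 2 ≤ q
        · obtain ⟨C, T₀, h⟩ := (Pool.Agent.Results.MP_e47f08_nt.HurwitzZetaValues.result m q (A : ℝ)).2.1
            1 (fun _ => 0) (fun _ => by simp) (fun k l n _ => Subsingleton.elim _ _) (a : ℝ) (a + 1) δ (by
              have : (1 : ℝ) ≤ a := by exact_mod_cast ha.1
              linarith) hδ
          refine ⟨C, T₀, fun T hT Y hY hYP hYd => ?_⟩
          have h1 := h 0 q le_rfl (θ k) (hθ k) T hT Y hY hYd
          have h2 : {x : ℚ | x ∈ Y ∧ ∃ z : ℂ, Pool.Agent.Results.MP_e47f08_nt.HurwitzZetaValues.AlgLe m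
              (T ^ (A : ℝ)) z ∧ Pool.Agent.Results.MP_e47f08_nt.HurwitzZetaValues.F q ((x : ℂ) + 0) = z * θ k} =
              (Y : Set ℚ) := by
            ext x
            have hF : Pool.Agent.Results.MP_e47f08_nt.HurwitzZetaValues.F q ((x : ℂ) + 0) =
                ∑' j : ℕ, 1 / ((j : ℂ) + (x : ℂ)) ^ q := by
              unfold Pool.Agent.Results.MP_e47f08_nt.HurwitzZetaValues.F
              rw [if_neg (by omega), if_neg (by omega), add_zero]
            simp only [Set.mem_setOf_eq, Finset.mem_coe, rpow_natCast, hF]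
            exact ⟨fun hx => hx.1, fun hx => ⟨hx, (hYP x hx).2⟩⟩
          rw [h2, Set.ncard_coe_finset] at h1
          exact h1
        · refine ⟨0, 0, fun T _ Y _ hYP _ => ?_⟩
          rcases Y.eq_empty_or_nonempty with hYe | ⟨y, hy⟩
          · rw [hYe, Finset.card_empty]
          · exact absurd (hYP y hy).1 ha) g
      refine ⟨C₁ + C₂, fun u l hu hl => ?_⟩
      refine (Set.ncard_le_ncard ?_ (((words_finite b l).subset fun w hw => ⟨hw.1, hw.2.1⟩).union
        ((words_finite b l).subset fun w hw => ⟨hw.1, hw.2.1⟩))).trans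
        ((Set.ncard_union_le _ _).trans (Nat.add_le_add (h₁ u l hu hl) (h₂ u l hu hl)))
      rintro w ⟨hwl, hd, hp, hw⟩
      simp only [Set.mem_setOf_eq, hwl] at hw
      rcases hw with hw | hw
      · exact Or.inl ⟨hwl, hd, hp, hw⟩
      · exact Or.inr ⟨hwl, hd, hp, hw⟩)
  refine ⟨σ, hσb, fun a q k m A δ hδ => ?_⟩
  obtain ⟨K, C, hC⟩ := hσ (a, q, k, m, A) δ hδ
  refine ⟨K, C, fun x hx n hn hmov => ?_⟩
  have h1 := hC x hx n hn hmov
  have h2 : ((a : ℚ) + val b (play x n)) = point b a x n := by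
    rw [val_play hb]
    rfl
  simp only [Set.mem_setOf_eq, not_or, play_length, h2] at h1
  exact ⟨fun ha hz => h1.1 ⟨ha, hz⟩, fun ha hq hz => h1.2 ⟨⟨ha, hq⟩, hz⟩⟩

end Pool.Agent.Results.MP_e47f08_nt.TruncationGame
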